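import Pool.Agent.V8H2.QZ.Zero

set_option autoImplicit false

/-! Bounded clusters of prime values of quadratic polynomials near their positive zeros. -/

namespace Pool.Agent.V8H2.QZ

open Finset Filter
open Pool.Agent.N913.MG
open Pool.Agent.N913.MT (evt_log_ge evt_log_pow)

/-- the positive zero of `a x ^ 2 + b x - N` -/
noncomputable def zz (a b : ℤ) (N : ℕ) : ℝ := (-(b : ℝ) + √((b : ℝ) ^ 2 + 4 * a * N)) / (2 * a)

/-- the number of `h ∈ S` with a prime value at `u + h` -/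
def pcount (a b : ℤ) (N : ℕ) (S : Finset ℕ) (u : ℕ) : ℕ :=
  (S.filter (fun h : ℕ => (a * ((u + h : ℕ) : ℤ) ^ 2 + b * ((u + h : ℕ) : ℤ) - N).toNat.Prime)).card

/-- the property for one window -/
def Win (a b : ℤ) (m B : ℕ) (S : Finset ℕ) (X N J : ℕ) : Prop :=
  ∃ u : ℕ, zz a b N + J ≤ u ∧ (u : ℝ) ≤ zz a b N + J + Real.log X ^ B ∧ m ≤ pcount a b N S u

theorem log_facts (a bb : ℕ) (ha : 1 ≤ a) : ∃ X0 : ℕ, ∀ X : ℕ, X0 ≤ X →
    Real.log X ≤ 2 * Real.log (S2z a bb X : ℕ) ∧ Real.log (S2z a bb X : ℕ) ≤ Real.log X ∧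
    (S2z a bb X : ℝ) ^ 2 ≤ (8 * a + 2 * bb ^ 2 + 2 * (a + 1) ^ 2) * X := by
  refine ⟨(4 * a + bb ^ 2 + a + 3) ^ 2, fun X hX => ?_⟩
  have hX1 : 1 ≤ X := le_trans (Nat.one_le_pow _ _ (by omega)) hX
  have hXr : (1 : ℝ) ≤ X := by exact_mod_cast hX1
  have hs1 : Nat.sqrt (4 * a * X + bb ^ 2) ^ 2 ≤ 4 * a * X + bb ^ 2 := Nat.sqrt_le' _
  have hs2 : X < S2z a bb X ^ 2 := by
    have h1 : 4 * a * X + bb ^ 2 < (Nat.sqrt (4 * a * X + bb ^ 2) + 1) ^ 2 := Nat.lt_succ_sqrt' _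
    have h2 : (Nat.sqrt (4 * a * X + bb ^ 2) + 1) ^ 2 ≤ S2z a bb X ^ 2 := by
      apply Nat.pow_le_pow_left
      unfold S2z
      omega
    have h3 : X ≤ 4 * a * X := by nlinarith
    omega
  have hsq : (S2z a bb X : ℝ) ^ 2 ≤ (8 * a + 2 * bb ^ 2 + 2 * (a + 1) ^ 2) * X := by
    have h1 : (Nat.sqrt (4 * a * X + bb ^ 2) : ℝ) ^ 2 ≤ 4 * a * X + bb ^ 2 := by exact_mod_cast hs1
    have h2 : (S2z a bb X : ℝ) = Nat.sqrt (4 * a * X + bb ^ 2) + (a + 1) := by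
      unfold S2z; push_cast; ring
    have h3 : (S2z a bb X : ℝ) ^ 2 ≤ 2 * (Nat.sqrt (4 * a * X + bb ^ 2) : ℝ) ^ 2 + 2 * (a + 1) ^ 2 := by
      rw [h2]
      nlinarith [sq_nonneg ((Nat.sqrt (4 * a * X + bb ^ 2) : ℝ) - (a + 1))]
    have h4 : (0 : ℝ) ≤ (bb : ℝ) ^ 2 := by positivity
    have h5 : (0 : ℝ) ≤ ((a : ℝ) + 1) ^ 2 := by positivity
    nlinarith
  refine ⟨?_, ?_, hsq⟩
  · have h1 : (X : ℝ) ≤ ((S2z a bb X : ℕ) : ℝ) ^ 2 := by exact_mod_cast hs2.le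
    have h2 := Real.log_le_log (by linarith) h1
    rw [Real.log_pow] at h2
    push_cast at h2
    exact h2
  · apply Real.log_le_log
    · have : 1 ≤ S2z a bb X := by unfold S2z; omega
      exact_mod_cast this
    · have h1 : S2z a bb X ≤ X := by
        have h2 : (S2z a bb X) ^ 2 ≤ (8 * a + 2 * bb ^ 2 + 2 * (a + 1) ^ 2) * X := by
          exact_mod_cast hsq
        by_contra hc
        push Not at hc
        have h3 : X * X < (S2z a bb X) ^ 2 := by nlinarith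
        have h4 : X < 8 * a + 2 * bb ^ 2 + 2 * (a + 1) ^ 2 :=
          Nat.lt_of_mul_lt_mul_right (h3.trans_le h2)
        have h5 : 8 * a + 2 * bb ^ 2 + 2 * (a + 1) ^ 2 ≤ (4 * a + bb ^ 2 + a + 3) ^ 2 := by
          nlinarith [Nat.zero_le a, Nat.zero_le (bb ^ 2), Nat.zero_le (a * bb ^ 2)]
        omega
      exact_mod_cast h1

/-- one window -/
theorem window (m : ℕ) : ∃ k B : ℕ, ∀ (a b : ℤ), 1 ≤ a → ∀ S : Finset ℕ, k ≤ S.card →
    ∀ (C : ℕ) (ε : ℝ), 0 < ε →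
    ∃ X₀ : ℕ, ∀ X : ℕ, X₀ ≤ X → ∀ J : ℕ, (J : ℝ) ≤ Real.log X ^ C →
    ∃ Bad : Finset ℕ, (Bad.card : ℝ) ≤ ε * X ∧ ∀ N : ℕ, 1 ≤ N → N ≤ X →
      (∀ p : ℕ, p.Prime → ∃ t : ℤ, ¬ (p : ℤ) ∣ a * t ^ 2 + b * t - N) → N ∉ Bad →
      Win a b m B S X N J := by
  classical
  obtain ⟨k, B, hmt⟩ := mt m 2
  refine ⟨k, B + 1, fun a b ha S hS C ε hε => ?_⟩
  obtain ⟨A, hA⟩ : ∃ A : ℕ, (A : ℤ) = a := ⟨a.toNat, by omega⟩
  have hA1 : 1 ≤ A := by omega
  subst hA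
  set bb := b.natAbs with hbb
  set Kc : ℝ := 8 * A + 2 * bb ^ 2 + 2 * (A + 1) ^ 2 with hKc
  have hKc0 : 0 < Kc := by positivity
  obtain ⟨S0, hS0⟩ := hmt S hS A 2 (C + 2) (ε / 2 / Kc) (by positivity)
  obtain ⟨X1, hX1⟩ := log_facts A bb hA1
  obtain ⟨X2, hX2⟩ := eventually_atTop.1 ((evt_log_ge (2 ^ (C + 2) + 4 + 2 * A)).and
    (eventually_ge_atTop (S0 ^ 2)))
  refine ⟨max (max X1 X2) ⌈2 / ε * (A + bb)⌉₊, fun X hX J hJ => ?_⟩
  obtain ⟨lS2, lS1, hsq⟩ := hX1 X (((le_max_left _ _).trans (le_max_left _ _)).trans hX)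
  obtain ⟨g2, g3⟩ := hX2 X (((le_max_right _ _).trans (le_max_left _ _)).trans hX)
  have hXε : (A : ℝ) + bb ≤ ε / 2 * X := by
    have h1 : 2 / ε * (A + bb) ≤ X := (Nat.le_ceil _).trans (by
      exact_mod_cast (le_max_right _ _).trans hX)
    have h2 := mul_le_mul_of_nonneg_left h1 (show 0 ≤ ε / 2 by positivity)
    have h3 : ε / 2 * (2 / ε * ((A : ℝ) + bb)) = A + bb := by field_simp
    linarith
  obtain ⟨L, hL⟩ : ∃ L, L = Real.log X := ⟨_, rfl⟩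
  rw [← hL] at g2 lS1 lS2 hJ
  have h2C : (1 : ℝ) ≤ 2 ^ (C + 2) := one_le_pow₀ (by norm_num)
  have hA0 : (1 : ℝ) ≤ A := by exact_mod_cast hA1
  have hS0x : S0 ≤ S2z A bb X := by
    have h1 : X < S2z A bb X ^ 2 := by
      have h1 : 4 * A * X + bb ^ 2 < (Nat.sqrt (4 * A * X + bb ^ 2) + 1) ^ 2 := Nat.lt_succ_sqrt' _
      have h2 : (Nat.sqrt (4 * A * X + bb ^ 2) + 1) ^ 2 ≤ S2z A bb X ^ 2 := by
        apply Nat.pow_le_pow_left
        unfold S2z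
        omega
      have h3 : X ≤ 4 * A * X := by nlinarith
      omega
    have h2 : S0 ^ 2 < S2z A bb X ^ 2 := lt_of_le_of_lt g3 h1
    exact (lt_of_pow_lt_pow_left₀ 2 (Nat.zero_le _) h2).le
  obtain ⟨l, hl⟩ : ∃ l, l = Real.log (S2z A bb X : ℕ) := ⟨_, rfl⟩
  have hJ2 : ((J + 1 : ℕ) : ℝ) ≤ Real.log ((FZ A bb X).S2 : ℕ) ^ (C + 2) := by
    change ((J + 1 : ℕ) : ℝ) ≤ Real.log (S2z A bb X : ℕ) ^ (C + 2)
    rw [← hl] at lS2 ⊢
    have hl1 : 2 ^ (C + 1) ≤ l := by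
      have : (2 : ℝ) ^ (C + 2) = 2 * 2 ^ (C + 1) := by ring
      linarith
    have h2C' : (2 : ℝ) ^ C ≤ l := by
      have : (2 : ℝ) ^ (C + 1) = 2 * 2 ^ C := by ring
      have h3 : (0 : ℝ) ≤ 2 ^ C := by positivity
      linarith
    have h2 : (2 : ℝ) ≤ l := by
      have h3 : (1 : ℝ) ≤ 2 ^ C := one_le_pow₀ (by norm_num)
      have : (2 : ℝ) ^ (C + 1) = 2 * 2 ^ C := by ring
      linarith
    have h1 : (J : ℝ) ≤ l ^ (C + 1) := by
      calc (J : ℝ) ≤ L ^ C := hJ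
        _ ≤ (2 * l) ^ C := pow_le_pow_left₀ (by linarith) lS2 C
        _ = 2 ^ C * l ^ C := by rw [mul_pow]
        _ ≤ l * l ^ C := mul_le_mul_of_nonneg_right h2C' (by positivity)
        _ = _ := by rw [pow_succ]; ring
    have h3 : 1 ≤ l ^ (C + 1) := one_le_pow₀ (by linarith)
    push_cast
    rw [show C + 2 = (C + 1) + 1 by ring, pow_succ]
    nlinarith
  obtain ⟨Bad, hb1, hb2⟩ := hS0 (FZ A bb X) hS0x
      (fun t => by
        show |((A : ℤ) * (t : ℤ) ^ 2)| ≤ _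
        have e1 : ((⌈Real.log ((FZ A bb X).S2 : ℕ)⌉₊ : ℕ) : ℤ) ^ A * ((FZ A bb X).S2 : ℤ) *
            ((t : ℤ) + 1) ^ 2 = ((⌈Real.log (S2z A bb X : ℕ)⌉₊ : ℕ) : ℤ) ^ A * (S2z A bb X : ℤ) *
            ((t : ℤ) + 1) ^ 2 := rfl
        rw [e1, abs_of_nonneg (by positivity)]
        have h1 : (A : ℤ) ≤ (S2z A bb X : ℤ) := by unfold S2z; push_cast; omega
        have h2 : (1 : ℤ) ≤ ((⌈Real.log (S2z A bb X : ℕ)⌉₊ : ℕ) : ℤ) ^ A := by
          apply one_le_pow₀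
          have : 1 ≤ ⌈Real.log (S2z A bb X : ℕ)⌉₊ := by
            apply Nat.one_le_ceil_iff.2
            rw [← hl]
            rw [← hl] at lS2
            linarith
          exact_mod_cast this
        have h3 : (t : ℤ) ^ 2 ≤ ((t : ℤ) + 1) ^ 2 := by nlinarith [Int.natCast_nonneg t]
        have h4 : (0 : ℤ) ≤ (t : ℤ) ^ 2 := sq_nonneg _
        calc (A : ℤ) * (t : ℤ) ^ 2 ≤ (1 * (S2z A bb X : ℤ)) * ((t : ℤ) + 1) ^ 2 := by
              rw [one_mul]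
              exact mul_le_mul h1 h3 h4 (by positivity)
          _ ≤ _ := by
              apply mul_le_mul_of_nonneg_right _ (by positivity)
              exact mul_le_mul_of_nonneg_right h2 (by positivity))
      (NN_ge A bb X hA1) (J + 1) hJ2
  refine ⟨Bad.image (fun x => ((((x.1 : ℤ) ^ 2 - b ^ 2) / (4 * A)) + x.2).toNat) ∪ range (A + bb),
    ?_, ?_⟩
  · have h1 : ((Bad.image (fun x => ((((x.1 : ℤ) ^ 2 - b ^ 2) / (4 * A)) + x.2).toNat)).card : ℝ)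
        ≤ ε / 2 * X := by
      calc _ ≤ (Bad.card : ℝ) := by exact_mod_cast card_image_le
        _ ≤ ε / 2 / Kc * NN (FZ A bb X) := hb1
        _ ≤ ε / 2 / Kc * (Kc * X) :=
            mul_le_mul_of_nonneg_left ((NN_le A bb X).trans hsq) (by positivity)
        _ = _ := by field_simp
    have h2 := card_union_le
      (Bad.image (fun x => ((((x.1 : ℤ) ^ 2 - b ^ 2) / (4 * A)) + x.2).toNat)) (range (A + bb))
    rw [card_range] at h2
    have h3 : ((Bad.image (fun x => ((((x.1 : ℤ) ^ 2 - b ^ 2) / (4 * A)) + x.2).toNat) ∪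
        range (A + bb)).card : ℝ) ≤
        (Bad.image (fun x => ((((x.1 : ℤ) ^ 2 - b ^ 2) / (4 * A)) + x.2).toNat)).card +
          ((A : ℝ) + bb) := by exact_mod_cast h2
    linarith
  · intro N hN1 hNX hloc hNB
    rw [mem_union, not_or, mem_range, not_lt] at hNB
    obtain ⟨hNB, hNA⟩ := hNB
    obtain ⟨σ, h1, h2⟩ := exists_sigma (A : ℤ) b ha N
    have hsp := s_pos ha h2
    have hbA : (b : ℤ) ≤ bb := by omega
    have hσ1 : 1 ≤ σ := by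
      by_contra h
      obtain rfl : σ = 0 := by omega
      simp at h2
      omega
    have hσ1' : (1 : ℤ) ≤ σ := by exact_mod_cast hσ1
    have hs0 : (0 : ℤ) ≤ 2 * A * σ + b := by
      have hA1' : (1 : ℤ) ≤ A := by exact_mod_cast hA1
      nlinarith
    obtain ⟨s, hs⟩ : ∃ s : ℕ, (s : ℤ) = 2 * A * σ + b := ⟨(2 * (A : ℤ) * σ + b).toNat, by omega⟩
    obtain ⟨r, hr⟩ : ∃ r : ℕ, (r : ℤ) = N - (A * (σ : ℤ) ^ 2 + b * σ) :=
      ⟨((N : ℤ) - (A * (σ : ℤ) ^ 2 + b * σ)).toNat, by omega⟩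
    have hbb2 : ((bb : ℕ) : ℤ) ^ 2 = b ^ 2 := by rw [hbb]; simp
    have hssq : (s : ℤ) ^ 2 = 4 * A * (A * (σ : ℤ) ^ 2 + b * σ) + b ^ 2 := by rw [hs]; ring
    have hsle : s ≤ Nat.sqrt (4 * A * X + bb ^ 2) := by
      rw [Nat.le_sqrt']
      have h3 : (s : ℤ) ^ 2 ≤ 4 * A * X + (bb : ℤ) ^ 2 := by
        rw [hssq, hbb2]
        have h4 : (A : ℤ) * (σ : ℤ) ^ 2 + b * σ ≤ X := h1.trans (by exact_mod_cast hNX)
        have h5 : (0 : ℤ) ≤ A := Int.natCast_nonneg _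
        nlinarith
      exact_mod_cast h3
    have hsS : s + A < S2z A bb X := by unfold S2z; omega
    have hrs : (r : ℤ) < s + A := by
      rw [hr, hs]
      nlinarith
    have hvv : ∀ t : ℕ, vv (FZ A bb X) t (s, r) =
        A * ((σ : ℤ) + t) ^ 2 + b * ((σ : ℤ) + t) - N := by
      intro t
      have e : vv (FZ A bb X) t (s, r) = (s : ℤ) * (t : ℤ) + A * (t : ℤ) ^ 2 - r := rfl
      rw [e, hs, hr]
      ring
    have hloc' : ∀ p : ℕ, p.Prime → (∃ t : ℕ, ¬ (p : ℤ) ∣ vv (FZ A bb X) t (s, r)) ∧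
        ((range p).filter (fun i => (p : ℤ) ∣ vv (FZ A bb X) i (s, r))).card ≤ 2 := by
      intro p hp
      have hex : ∃ t : ℕ, ¬ (p : ℤ) ∣ vv (FZ A bb X) t (s, r) := by
        obtain ⟨t, ht⟩ := hloc p hp
        have hp0 : (p : ℤ) ≠ 0 := by exact_mod_cast hp.ne_zero
        refine ⟨((t - σ) % p).toNat, fun hd => ht ?_⟩
        rw [hvv] at hd
        have hcast : ((((t - σ) % p).toNat : ℕ) : ℤ) = (t - σ) % p :=
          Int.toNat_of_nonneg (Int.emod_nonneg _ hp0)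
        rw [hcast] at hd
        have h3 : (p : ℤ) ∣ ((σ : ℤ) + (t - σ) % p) - t := by
          have h4 : (p : ℤ) ∣ (t - σ) - (t - σ) % p := Int.dvd_self_sub_emod
          have h5 := (dvd_neg.2 h4)
          have e : -((t - σ : ℤ) - (t - σ) % p) = ((σ : ℤ) + (t - σ) % p) - t := by ring
          rwa [e] at h5
        set w : ℤ := (σ : ℤ) + (t - σ) % p
        have e : (A : ℤ) * t ^ 2 + b * t - N = (A * w ^ 2 + b * w - N) -
            (w - t) * (A * (w + t) + b) := by ring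
        rw [e]
        exact dvd_sub hd (h3.mul_right _)
      refine ⟨hex, ?_⟩
      have e : ∀ t : ℕ, vv (FZ A bb X) t (s, r) = (s : ℤ) * (t : ℤ) + A * (t : ℤ) ^ 2 - r :=
        fun t => rfl
      obtain ⟨t, ht⟩ := hex
      simp only [e] at ht ⊢
      exact loc2 A s r p hp ⟨t, ht⟩
    obtain ⟨i, hi1, hi2, hi3⟩ := hb2 (s, r) (by show s < S2z A bb X; omega)
      (by
        show r < min (s + A) (S2z A bb X)
        omega) hloc' (fun hB => hNB (by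
          rw [mem_image]
          refine ⟨_, hB, ?_⟩
          simp only
          rw [hssq]
          have e : 4 * (A : ℤ) * (A * (σ : ℤ) ^ 2 + b * σ) + b ^ 2 - b ^ 2 =
            4 * A * (A * (σ : ℤ) ^ 2 + b * σ) := by ring
          rw [e, Int.mul_ediv_cancel_left _ (by omega), hr]
          omega))
    change (i : ℝ) ≤ ((J + 1 : ℕ) : ℝ) + Real.log (S2z A bb X : ℕ) ^ B at hi2
    refine ⟨σ + i, ?_, ?_, ?_⟩
    · have h3 := lt_sigma ha h2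
      have h4 : ((J + 1 : ℕ) : ℝ) + 1 ≤ i := by exact_mod_cast hi1
      unfold zz
      push_cast at h4 h3 ⊢
      linarith
    · have h3 := sigma_le ha h1
      have h4 : Real.log (S2z A bb X : ℕ) ^ B ≤ L ^ B :=
        pow_le_pow_left₀ (Real.log_natCast_nonneg _) lS1 B
      have hLB : 1 ≤ L ^ B := one_le_pow₀ (by linarith)
      have h5 : 1 + L ^ B ≤ L ^ (B + 1) := by
        rw [pow_succ]
        nlinarith
      unfold zz
      rw [← hL]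
      push_cast at hi2 h3 ⊢
      linarith
    · refine hi3.trans ?_
      apply card_le_card
      intro h hh
      rw [mem_filter] at hh ⊢
      refine ⟨hh.1, ?_⟩
      have h3 := hh.2
      have h4 : (A : ℤ) * ((σ + i + h : ℕ) : ℤ) ^ 2 + b * ((σ + i + h : ℕ) : ℤ) - N =
          vv (FZ A bb X) (i + h) (s, r) := by
        rw [hvv]
        push_cast
        ring
      rw [h4]
      have h5 : 0 < vv (FZ A bb X) (i + h) (s, r) := by
        have e : vv (FZ A bb X) (i + h) (s, r) =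
          (s : ℤ) * ((i + h : ℕ) : ℤ) + A * ((i + h : ℕ) : ℤ) ^ 2 - r := rfl
        rw [e]
        have h6 : (1 : ℤ) ≤ ((i + h : ℕ) : ℤ) := by
          have : 1 ≤ i + h := by omega
          exact_mod_cast this
        have h7 : (0 : ℤ) ≤ s := Int.natCast_nonneg _
        have h8 : (0 : ℤ) ≤ A := Int.natCast_nonneg _
        have h9 : (s : ℤ) ≤ s * ((i + h : ℕ) : ℤ) := le_mul_of_one_le_right h7 h6
        have h10 : (A : ℤ) ≤ A * ((i + h : ℕ) : ℤ) ^ 2 :=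
          le_mul_of_one_le_right h8 (one_le_pow₀ h6)
        linarith
      have h6 : (vv (FZ A bb X) (i + h) (s, r)).toNat =
          (vv (FZ A bb X) (i + h) (s, r)).natAbs := by omega
      rw [h6]
      exact h3

/-- many windows -/
theorem windows (m : ℕ) : ∃ k B : ℕ, ∀ (a b : ℤ), 1 ≤ a → ∀ S : Finset ℕ, k ≤ S.card →
    ∀ (C : ℕ) (ε : ℝ), 0 < ε →
    ∃ X₀ : ℕ, ∀ X : ℕ, X₀ ≤ X → ∀ W : Finset ℕ, (∀ J ∈ W, (J : ℝ) ≤ Real.log X ^ C) →
    ∃ Bad ⊆ Icc 1 X, (Bad.card : ℝ) ≤ ε * X ∧ ∀ N ∈ Icc 1 X, N ∉ Bad →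
      (∀ p : ℕ, p.Prime → ∃ t : ℤ, ¬ (p : ℤ) ∣ a * t ^ 2 + b * t - N) →
      ∃ G ⊆ W, (1 - ε) * W.card ≤ G.card ∧ ∀ J ∈ G, Win a b m B S X N J := by
  classical
  obtain ⟨k, B, hw⟩ := window m
  refine ⟨k, B, fun a b ha S hS C ε hε => ?_⟩
  obtain ⟨X0, hX0⟩ := hw a b ha S hS C (ε ^ 2) (by positivity)
  refine ⟨X0, fun X hX W hW => ?_⟩
  obtain ⟨Ω, hΩ⟩ : ∃ Ω : Finset ℕ, Ω = (Icc 1 X).filter (fun N : ℕ =>
    ∀ p : ℕ, p.Prime → ∃ t : ℤ, ¬ (p : ℤ) ∣ a * t ^ 2 + b * t - N) := ⟨_, rfl⟩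
  obtain ⟨Bad, h1, h2, h3⟩ := double Ω W (fun N J => Win a b m B S X N J) ε X hε
    (Nat.cast_nonneg _) (by
      intro J hJ
      obtain ⟨Bad, hb1, hb2⟩ := hX0 X hX J (hW J hJ)
      refine ⟨Bad, hb1, fun N hN hNB => ?_⟩
      rw [hΩ, mem_filter, mem_Icc] at hN
      exact hb2 N hN.1.1 hN.1.2 hN.2 hNB)
  refine ⟨Bad, h1.trans (by rw [hΩ]; exact filter_subset _ _), h2, fun N hN hNB hloc => ?_⟩
  exact h3 N (by rw [hΩ, mem_filter]; exact ⟨hN, hloc⟩) hNB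

end Pool.Agent.V8H2.QZ
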