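import Pool.Agent.N913.MG.L14

set_option autoImplicit false

/-! Bounded clusters of prime values of quadratic polynomials near their positive zeros. -/

namespace Pool.Agent.V8H2.QZ

open Finset Filter
open Pool.Agent.N913.MG
open Pool.Agent.N913.MT (evt_log_ge evt_log_pow)

/-- the size of the family -/
def S2z (a bb X : ℕ) : ℕ := Nat.sqrt (4 * a * X + bb ^ 2) + a + 1

/-- the family `s t + a t ^ 2 - r`, `r < s + a` -/
def FZ (a bb X : ℕ) : Fam where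
  c := fun t => (a : ℤ) * (t : ℤ) ^ 2
  g := fun s => min (s + a) (S2z a bb X)
  S2 := S2z a bb X
  hc := fun t t' => by
    have : (a : ℤ) * (t : ℤ) ^ 2 - a * (t' : ℤ) ^ 2 = ((t : ℤ) - t') * (a * (t + t')) := by ring
    rw [this]
    exact Dvd.intro _ rfl
  hS := by unfold S2z; omega
  hg1 := fun s => by omega
  hg2 := fun s => by omega
  hg3 := fun s hs => by omega

theorem NN_le (a bb X : ℕ) : NN (FZ a bb X) ≤ (S2z a bb X : ℝ) ^ 2 := by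
  have h : NN (FZ a bb X) = ∑ s ∈ range (S2z a bb X), ((min (s + a) (S2z a bb X) : ℕ) : ℝ) := rfl
  rw [h, sq]
  calc ∑ s ∈ range (S2z a bb X), ((min (s + a) (S2z a bb X) : ℕ) : ℝ)
      ≤ ∑ _s ∈ range (S2z a bb X), (S2z a bb X : ℝ) :=
        sum_le_sum fun s _ => by exact_mod_cast min_le_right _ _
    _ = _ := by rw [sum_const, card_range, nsmul_eq_mul]

theorem NN_ge (a bb X : ℕ) (ha : 1 ≤ a) : (S2z a bb X : ℝ) ^ 2 ≤ 4 * NN (FZ a bb X) := by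
  have h : NN (FZ a bb X) = ∑ s ∈ range (S2z a bb X), ((min (s + a) (S2z a bb X) : ℕ) : ℝ) := rfl
  have h1 : ∑ s ∈ range (S2z a bb X), ((s : ℕ) : ℝ) + S2z a bb X ≤ NN (FZ a bb X) := by
    rw [h]
    calc ∑ s ∈ range (S2z a bb X), ((s : ℕ) : ℝ) + S2z a bb X =
        ∑ s ∈ range (S2z a bb X), (((s : ℕ) : ℝ) + 1) := by
          rw [sum_add_distrib, sum_const, card_range, nsmul_eq_mul, mul_one]
      _ ≤ _ := sum_le_sum fun s hs => by
          rw [mem_range] at hs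
          have : s + 1 ≤ min (s + a) (S2z a bb X) := by omega
          exact_mod_cast this
  have h2 := Finset.sum_range_id_mul_two (S2z a bb X)
  have h3 : 1 ≤ S2z a bb X := by unfold S2z; omega
  have h4 : (∑ s ∈ range (S2z a bb X), ((s : ℕ) : ℝ)) * 2 = (S2z a bb X : ℝ) * (S2z a bb X - 1) := by
    have h5 : ((((∑ s ∈ range (S2z a bb X), s) * 2 : ℕ)) : ℝ) =
        ((S2z a bb X * (S2z a bb X - 1) : ℕ) : ℝ) := by rw [h2]
    rw [Nat.cast_mul (S2z a bb X), Nat.cast_sub h3] at h5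
    push_cast at h5
    exact h5
  have h6 : (0 : ℝ) ≤ S2z a bb X := Nat.cast_nonneg _
  nlinarith

/-- the largest argument before the zero -/
theorem exists_sigma (a b : ℤ) (ha : 1 ≤ a) (N : ℕ) : ∃ σ : ℕ,
    a * (σ : ℤ) ^ 2 + b * σ ≤ N ∧ (N : ℤ) < a * ((σ : ℤ) + 1) ^ 2 + b * ((σ : ℤ) + 1) := by
  have hP : ∃ n : ℕ, (N : ℤ) < a * (n : ℤ) ^ 2 + b * n := by
    refine ⟨N + b.natAbs + 1, ?_⟩
    have h1 : -(b.natAbs : ℤ) ≤ b := by omega
    push_cast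
    set B : ℤ := (b.natAbs : ℤ)
    have hB : 0 ≤ B := Int.natCast_nonneg _
    have hN : (0 : ℤ) ≤ N := Int.natCast_nonneg _
    have h2 : ((N : ℤ) + |b| + 1) ^ 2 ≤ a * ((N : ℤ) + |b| + 1) ^ 2 := by
      have : 0 ≤ ((N : ℤ) + |b| + 1) ^ 2 := sq_nonneg _
      nlinarith
    have h3 : -|b| ≤ b := neg_abs_le b
    have h4 : 0 ≤ |b| := abs_nonneg b
    nlinarith
  classical
  set n := Nat.find hP with hn
  have h1 := Nat.find_spec hP
  rw [← hn] at h1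
  have h0 : n ≠ 0 := by
    intro h
    rw [h] at h1
    simp at h1
    omega
  obtain ⟨σ, hσ⟩ : ∃ σ, n = σ + 1 := ⟨n - 1, by omega⟩
  refine ⟨σ, ?_, ?_⟩
  · have := Nat.find_min hP (show σ < Nat.find hP by omega)
    exact not_lt.1 this
  · rw [hσ] at h1
    push_cast at h1
    exact h1

section
variable {a b : ℤ} {N σ : ℕ}

theorem s_pos (ha : 1 ≤ a) (h2 : (N : ℤ) < a * ((σ : ℤ) + 1) ^ 2 + b * ((σ : ℤ) + 1)) :
    1 ≤ a * ((σ : ℤ) + 1) + b := by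
  by_contra h
  push Not at h
  have h3 : a * ((σ : ℤ) + 1) ^ 2 + b * ((σ : ℤ) + 1) = ((σ : ℤ) + 1) * (a * ((σ : ℤ) + 1) + b) := by
    ring
  rw [h3] at h2
  have h4 : (0 : ℤ) ≤ N := Int.natCast_nonneg _
  have h5 : (0 : ℤ) ≤ σ := Int.natCast_nonneg _
  nlinarith

theorem sigma_le (ha : 1 ≤ a) (h1 : a * (σ : ℤ) ^ 2 + b * σ ≤ N) :
    (σ : ℝ) ≤ (-(b : ℝ) + √((b : ℝ) ^ 2 + 4 * a * N)) / (2 * a) := by
  have ha' : (1 : ℝ) ≤ a := by exact_mod_cast ha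
  have h1' : (a : ℝ) * (σ : ℝ) ^ 2 + b * σ ≤ N := by exact_mod_cast h1
  rw [le_div_iff₀ (by positivity)]
  have h2 : 2 * a * σ + (b : ℝ) ≤ √((b : ℝ) ^ 2 + 4 * a * N) := by
    apply Real.le_sqrt_of_sq_le
    nlinarith
  linarith

theorem lt_sigma (ha : 1 ≤ a) (h2 : (N : ℤ) < a * ((σ : ℤ) + 1) ^ 2 + b * ((σ : ℤ) + 1)) :
    (-(b : ℝ) + √((b : ℝ) ^ 2 + 4 * a * N)) / (2 * a) < σ + 1 := by
  have ha' : (1 : ℝ) ≤ a := by exact_mod_cast ha
  have h3 := s_pos ha h2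
  have h2' : (N : ℝ) < a * ((σ : ℝ) + 1) ^ 2 + b * ((σ : ℝ) + 1) := by exact_mod_cast h2
  have h3' : (1 : ℝ) ≤ a * ((σ : ℝ) + 1) + b := by exact_mod_cast h3
  have h4 : (0 : ℝ) ≤ σ := Nat.cast_nonneg _
  rw [div_lt_iff₀ (by positivity)]
  have h5 : √((b : ℝ) ^ 2 + 4 * a * N) < 2 * a * (σ + 1) + b := by
    rw [Real.sqrt_lt' (by nlinarith)]
    nlinarith
  linarith

end

/-- at most two roots modulo a prime, if some value is not divisible -/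
theorem loc2 (a s r : ℤ) (p : ℕ) (hp : p.Prime)
    (h : ∃ t : ℕ, ¬ (p : ℤ) ∣ s * (t : ℤ) + a * (t : ℤ) ^ 2 - r) :
    ((range p).filter (fun t : ℕ => (p : ℤ) ∣ s * (t : ℤ) + a * (t : ℤ) ^ 2 - r)).card ≤ 2 := by
  by_contra hcon
  push Not at hcon
  obtain ⟨x, hx, y, hy, z, hz, hxy, hxz, hyz⟩ := two_lt_card.1 hcon
  rw [mem_filter, mem_range] at hx hy hz
  have hpp : Prime (p : ℤ) := Nat.prime_iff_prime_int.1 hp
  have hne : ∀ u v : ℕ, u < p → v < p → u ≠ v → ¬ (p : ℤ) ∣ (u : ℤ) - v := by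
    intro u v hu hv huv h
    have h1 : (v : ℕ) ≡ u [MOD p] := (Nat.modEq_iff_dvd).2 h
    have h2 := Nat.ModEq.eq_of_lt_of_lt h1 hv hu
    exact huv h2.symm
  have h1 := dvd_sub hx.2 hy.2
  have e1 : s * (x : ℤ) + a * (x : ℤ) ^ 2 - r - (s * (y : ℤ) + a * (y : ℤ) ^ 2 - r) =
    ((x : ℤ) - y) * (s + a * (x + y)) := by ring
  rw [e1] at h1
  have h2 := dvd_sub hx.2 hz.2
  have e2 : s * (x : ℤ) + a * (x : ℤ) ^ 2 - r - (s * (z : ℤ) + a * (z : ℤ) ^ 2 - r) =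
    ((x : ℤ) - z) * (s + a * (x + z)) := by ring
  rw [e2] at h2
  have h3 := (hpp.dvd_or_dvd h1).resolve_left (hne x y hx.1 hy.1 hxy)
  have h4 := (hpp.dvd_or_dvd h2).resolve_left (hne x z hx.1 hz.1 hxz)
  have h5 := dvd_sub h3 h4
  have e : s + a * ((x : ℤ) + y) - (s + a * ((x : ℤ) + z)) = a * ((y : ℤ) - z) := by ring
  rw [e] at h5
  have h6 : (p : ℤ) ∣ a := (hpp.dvd_or_dvd h5).resolve_right (hne y z hy.1 hz.1 hyz)
  have h7 : (p : ℤ) ∣ s := by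
    have := dvd_sub h3 (h6.mul_right ((x : ℤ) + y))
    have e3 : s + a * ((x : ℤ) + y) - a * ((x : ℤ) + y) = s := by ring
    rwa [e3] at this
  have h8 : (p : ℤ) ∣ r := by
    have h9 := dvd_sub ((h7.mul_right (x : ℤ)).add (h6.mul_right ((x : ℤ) ^ 2))) hx.2
    have e3 : s * (x : ℤ) + a * (x : ℤ) ^ 2 - (s * (x : ℤ) + a * (x : ℤ) ^ 2 - r) = r := by ring
    rwa [e3] at h9
  obtain ⟨t, ht⟩ := h
  exact ht (dvd_sub ((h7.mul_right _).add (h6.mul_right _)) h8)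

end Pool.Agent.V8H2.QZ
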